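import Mathlib
import Pool.Agent.TH115.GD.Defs
import Pool.Agent.TH115.ID.Defs
import Pool.Agent.R939.EI.Tw1
import Pool.Agent.R939.EI.Den2
import Pool.Agent.T6.H14.EV.Main

/-!
# The Tate conjecture at 2 for almost all base changes, of every degree, of elliptic surfaces

Let `k` be a number field, `K = k(t)`, `F = k'(t)` with `k'` a separable closure of `k`. For polynomials
`a`, `b` over `k` let `E(a, b) : y² = x (x² + a x + b)`. `TateAtTwo` says that all the classes in
`V₂ Sel(E / F)` which are fixed by the Galois group of `k` come from `E(K)`: this is the Tate
conjecture for divisors and the prime 2 on the elliptic surface over the projective line with generic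
fibre `E`.

The criterion of the starting library proves `TateAtTwo` for `E(a, b)` if `Crit` holds: `b` and
`a² - 4 b` are not constants times squares or norms from quadratic extensions of the constants
(`NotNorm`), and the classes of the divisors `A` of `b` (respectively of `a² - 4 b`, for the isogenous
curve) which are norms from `K(√(a² - 4 b))` (respectively `K(√b)`) up to a constant come from points
over `K` (`NormPoints`). If there are only the trivial classes (`CritTriv`), then it proves it for the
twists by all polynomials `D` such that `b` and `a² - 4 b` are not squares modulo the primes dividing
`D` (`InertIn`). It was known that the base changes by `t ↦ h(t)` satisfy this for `h` of ODD degree for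
which the primes dividing `b (a² - 4 b)` remain primes, for example for 100 percent of the `h` of a
given odd degree; this used Springer's theorem and norms.

Theorem. Let `G ≠ 0` be a polynomial over `k` and `m ≥ 1`, `m ≠ 2`. For 100 percent of the polynomials
`h` of degree `m` with coefficients in the ring of integers of `k` (ordered by the maximum of the
coordinates of the coefficients) the following holds for ALL the curves `E(a, b)` over `k(t)` for which
the primes of `b (a² - 4 b)` divide `G` (so the bad fibres lie over the zeros of `G` and over `∞`):

* if `E(a, b)` satisfies `Crit`, then so does the base change `E(a(h), b(h))`, and the Tate conjecture at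
  2 holds for it;
* if `E(a, b)` satisfies `CritTriv`, then so does `E(a(h), b(h))`, and the Tate conjecture at 2 holds for
  ALL the twists of `E(a(h), b(h))` by `c D`, `c ≠ 0` a constant and `D` a polynomial over `k` such that
  `b(h)` and `a(h)² - 4 b(h)` are not squares modulo any prime dividing `D` (these `D` are not
  assumed to be polynomials in `h`).

For example `CritTriv` holds if `b` and `a² - 4 b` are irreducible of odd degree and `b` does not divide
`a`; so the theorem gives 100 percent of the base changes of every even degree `≥ 4`, which the earlier
results do not reach, and since the hypotheses carry over, one can iterate. (For `m = 2` there are always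
new square roots in the residue fields.)

Proof. Let `β` be a root of a prime `π` of `G` and `θ` a root of `h - β`. The new point is that for 100
percent of the `h` of degree `m ≠ 2` the field `k(θ)` contains no square root of an element of `k(β)`
which is not a square in `k(β)` (`NoQ`). Otherwise `h - β` would be a product of two factors of degree
`m / 2` over a quadratic extension of `k(β)`, for a set of `h` of positive upper density, and by the
transfer principle (`Pool.Agent.R939.BC.Tr`) this could be specialized to a discrete valuation ring
of ramification index at most `2` over `ℤ_p`, with `h` close to `t ^ m - t ^ (m - 1) + β + p`. There the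
product of the constant terms of the factors is `p` up to a unit; one factor is `≡ t ^ (m / 2)`, the
other `≡ t ^ (m / 2 - 1) (t - 1)`, and the coefficient of `t ^ (m / 2 - 1)` of the product shows that the
constant term of the first is divisible by the square of the uniformizer, a contradiction. By `NoQ` the
residues of a quaternion algebra `(A(h), d(h))` over `k(t)` at the primes `π(h)` are trivial only if those
of `(A, d)` at `π` are. A quaternion algebra over `k(s)` without residues at the primes of `k[s]` is
constant (proved here by a descent of Legendre and Faddeev type for the conic), so it splits if it
splits over `k(t)`, `s = h(t)`. Hence all the classes of `E(a(h), b(h))` come from classes of `E(a, b)`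
and so from points.
-/

set_option autoImplicit false

namespace Pool.Agent.Results.MP_97f789_ag.AlmostAllCoversEveryDegree

open Polynomial NumberField Pool.Agent.TH115.GD Pool.Agent.R939.EI Pool.Agent.T6.H14.EV

/-- The set of the exceptional `h`, of degree at most `m` and with coefficients in the ring of integers
with coordinates at most `H`, has at most `η (2 H + 1) ^ ([k : ℚ] (m + 1))` elements for all large `H`;
`Tame` is the statement on the base change by `h`. -/
theorem result {k k' K F : Type} [Field k] [NumberField k] [Field k'] [Algebra k k'] [Field K]
    [Algebra k[X] K] [Field F] [Algebra k'[X] F] [IsFractionRing k'[X] F] [Algebra K F]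
    (hT : IsTower k k' K F) {J : Type} [Fintype J] (B : Module.Basis J ℤ (𝓞 k)) {G : k[X]}
    (hG : G ≠ 0) {m : ℕ} (hm : 1 ≤ m) (hm2 : m ≠ 2) {η : ℝ} (hη : 0 < η) :
    ∃ H0 : ℕ, ∀ H : ℕ, H0 ≤ H →
      (({x : Fin (m + 1) → 𝓞 k | (∀ j t, |B.repr (x j) t| ≤ (H : ℤ)) ∧
        ¬ ((polA fun j => algebraMap (𝓞 k) k (x j)).natDegree = m ∧
          ∀ a b : k[X], (∀ π : k[X], Irreducible π → π ∣ b * (a ^ 2 - 4 * b) → π ∣ G) →
            Tame k' K F a b (polA fun j => algebraMap (𝓞 k) k (x j)))}.ncard : ℕ) : ℝ) ≤
        η * (2 * H + 1) ^ (Fintype.card J * (m + 1)) :=
  almost_all hT B hG hm hm2 hη

end Pool.Agent.Results.MP_97f789_ag.AlmostAllCoversEveryDegree
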