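import Pool.Agent.T6.H36.CV2

/-!
# The Tate conjecture at 2 for almost all the Chebyshev covers of an elliptic surface

Let `k` be a number field, `K = k(t)`, `F = k'(t)` with `k'` a separable closure of `k`, and let
`E : y² = x (x² + a x + b)` be an elliptic curve over `K`, `a`, `b` polynomials. `TateAtTwo` says that
all the classes in `V₂ Sel(E / F)` which are fixed by the Galois group of `k` come from `E(K)`: the Tate
conjecture for divisors and the prime 2 on the elliptic surface over the projective line with generic
fibre `E`.

For `α ≠ 0` in `k` and odd `m` let `C_m = α ^ (-(m - 1) / 2) D_m(t, α)` be the Dickson polynomial of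
degree `m` (the Chebyshev polynomial for `α = 1`), so that `C_m(z (w + 1 / w)) = z (w ^ m + 1 / w ^ m)`
for `z² = α`. The polynomial `C_m` is the quotient of the multiplication by `m` of a torus by `±1`; the
torus is anisotropic over the residue fields of half of the primes of `k(t)`.

Theorem. Let `b` and `a² - 4 b` satisfy the condition `NotNorm` (not a constant times a square or times
a norm of a polynomial over a quadratic extension of `k`), let `OnlyTrivial` hold for `(a, b)` and for
`(-2 a, a² - 4 b)`, the curve isogenous to `E`; all this holds for example if `b` and `a² - 4 b` are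
irreducible of odd degree and `b` does not divide `a`. Let `D ≠ 0` be a polynomial (for example
`D = 1`) such that `b` and `a² - 4 b` are not squares modulo any prime which divides `D`. Suppose that
no root of `b (a² - 4 b) D` is `z (ζ + 1 / ζ)` with `z² = α` and `ζ` a root of unity. Then there is a
positive integer `N` such that for all `m` prime to `N` and all constants `c ≠ 0` the Tate conjecture
at 2 holds for the quadratic twist by `c D(C_m(t))` of the base change of `E` by `t ↦ C_m(t)`.

The theorem for the covers `t ↦ tᵐ` is `Pool.Agent.Results.MP_97f789_ag.AllCoprimeCovers`.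

Proof. By `Pool.Agent.R939.EI.twist_main` it is enough that the primes `π` which divide
`b (a² - 4 b) D` remain prime after `t ↦ C_m(t)`. Let `β` be a root of `π` and `β = x + α / x`. If
`x² / α` is not an `ℓ`-th power in `k(x)` for the primes `ℓ` which divide `m`, then the field `k(y)`,
`y + α / y` a root of `C_m = β`, has degree over `k` divisible by `m [k(x) : k]` (theorem of Vahlen and
Capelli), and since `m` is odd, the degree of `k(y + α / y)` over `k` is `m deg π`
(`Pool.Agent.T6.H36.CV.irr_Ch`). An element of the number field `k(x)` which is not zero and not a root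
of unity is an `ℓ`-th power only for finitely many `ℓ`.
-/

namespace Pool.Agent.Results.MP_97f789_ag.ChebyshevCovers

open Polynomial Pool.Agent.TH115.GD Pool.Agent.R939.EI

/-- The polynomial `α ^ (-(m - 1) / 2) D_m(t, α)` with the Dickson polynomial `D_m` of the first kind:
for odd `m` and `z² = α` it maps `z (w + 1 / w)` to `z (w ^ m + 1 / w ^ m)`. -/
noncomputable def chebyshev {k : Type} [Field k] (α : k) (m : ℕ) : k[X] :=
  C ((α ^ ((m - 1) / 2))⁻¹) * dickson 1 α m

theorem result {k k' K F : Type} [Field k] [NumberField k] [Field k'] [Algebra k k'] [Field K]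
    [Algebra k[X] K] [Field F] [Algebra k'[X] F] [IsFractionRing k'[X] F] [Algebra K F]
    (hT : IsTower k k' K F) {a b D : k[X]} (hNb : NotNorm b) (hNd : NotNorm (a ^ 2 - 4 * b))
    (hO : OnlyTrivial a b) (hO' : OnlyTrivial (-2 * a) (a ^ 2 - 4 * b)) (hD : InertIn a b D)
    {α : k} (hα : α ≠ 0)
    (h0 : ∀ x : AlgebraicClosure k, x ≠ 0 →
      aeval (x + algebraMap k _ α / x) (b * (a ^ 2 - 4 * b) * D) = 0 →
      ∀ n : ℕ, 0 < n → x ^ (2 * n) ≠ algebraMap k _ (α ^ n)) :
    ∃ N : ℕ, N ≠ 0 ∧ ∀ m : ℕ, Nat.Coprime m N → ∀ c : k, c ≠ 0 →
      TateAtTwo (F := F) k' (crvT (algebraMap k[X] K ((C c * (a * D)).comp (chebyshev α m)))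
        (algebraMap k[X] K ((C (c ^ 2) * (b * D ^ 2)).comp (chebyshev α m)))) :=
  Pool.Agent.T6.H36.CV.cheb_nf hT hNb hNd hO hO' hD hα h0

end Pool.Agent.Results.MP_97f789_ag.ChebyshevCovers
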