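import Pool.Agent.T6.H9.NL.Lines

/-!
# The Tate sums of almost all members of a linear system with base locus

Owner helper9. Let `K` be a number field, `Z` a closed subset of a projective space over `𝓞_K` with
`O(q_v^d)` points modulo `v`, `g_i` finitely many forms of degrees `e_i < D` and `W` the subset of
`Z` where all `g_i` vanish. Consider all members `X_f : f = 0` of `Z`, `f = ∑ h_i g_i` with forms
`h_i` of degree `D - e_i` over `𝓞_K`, ordered by the size of the coefficients. For almost all of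
them `∑_{q_v ≤ X} (#X_f(F_v) - #W(F_v) - q_v^{-1} #(Z ∖ W)(F_v)) log q_v = O(X^{d/2+δ})` for all `X`
up to a power of the size. For `d ≥ 3` the exponent is less than `d - 1`: on average `X_f`, of
dimension `d - 1`, has no Tate classes for divisors besides those of `Z` and the components of `W`.
For example, for almost all surfaces `X_f` of degree `D` in the projective space which contain
the `r < D` distinct lines `x_1 = a_j x_0, x_3 = b_j x_2` one has
`∑_{q_v ≤ X} (#X_f(F_v) - q_v² - q_v - 1) log q_v = r ∑_{q_v ≤ X} q_v log q_v + O(X^{3/2+δ})`: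
the analytic Picard number is `1 + r` on average.
-/

set_option autoImplicit false
set_option linter.unusedVariables false

open NumberField IsDedekindDomain

namespace Pool.Agent.Results.MP_97f789_ag.TateOnAverage

open Pool.Agent.T6.H9.TateAvg Pool.Agent.T6.H9.NL Pool.Agent.T6.H9.QM

/-- **The Tate sums on average.** -/
theorem result {K : Type} [Field K] [NumberField K] {ι : Type} [Fintype ι]
    (ω : Module.Basis ι ℤ (𝓞 K)) (δ : ℝ) (hδ : 0 < δ) :
    (∀ (σ : Type) [Fintype σ] (M D d : ℕ) (Z : Set (MvPolynomial (Fin M) (𝓞 K))) (e : σ → ℕ)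
      (g : σ → MvPolynomial (Fin M) (𝓞 K)) (A : ℝ), (∀ p ∈ Z, ∃ n, p.IsHomogeneous n) →
      (∀ i, (g i).IsHomogeneous (e i)) → (∀ i, e i < D) →
      (∀ v : HeightOneSpectrum (𝓞 K), points Z v ≤ A * (Ideal.absNorm v.asIdeal : ℝ) ^ d) →
      ∃ L : ℝ, 0 < L ∧ ∀ (N : ℕ) (B : Idx M D e × ι → ℕ), (∀ j, N ≤ B j) → ∀ X₀ : ℝ, 1 ≤ X₀ →
        ({c : Idx M D e → 𝓞 K | c ∈ Box ω B ∧ ∃ X : ℕ, X₀ ≤ X ∧ X ^ (2 * d + 4) ≤ N ∧
          (X : ℝ) ^ ((d : ℝ) / 2 + δ) < |∑ᶠ v ∈ {v : HeightOneSpectrum (𝓞 K) |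
            Ideal.absNorm v.asIdeal ≤ X}, tate Z g c v *
              Real.log (Ideal.absNorm v.asIdeal)|}.ncard : ℝ) ≤
          L * X₀ ^ (-δ) * ((Box ω B).ncard : ℝ)) ∧
    (∀ (r D : ℕ), r < D → ∀ a b : Fin r → 𝓞 K, (Function.Injective fun j => (a j, b j)) →
      ∃ L : ℝ, 0 < L ∧ ∀ (N : ℕ) (B : Idx 4 D (fun _ : Fin r → Bool => r) × ι → ℕ),
        (∀ j, N ≤ B j) → ∀ X₀ : ℝ, 1 ≤ X₀ →
        ({c : Idx 4 D (fun _ : Fin r → Bool => r) → 𝓞 K | c ∈ Box ω B ∧
          ∃ X : ℕ, X₀ ≤ X ∧ X ^ 10 ≤ N ∧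
            (X : ℝ) ^ ((3 : ℝ) / 2 + δ) < |∑ᶠ v ∈ {v : HeightOneSpectrum (𝓞 K) |
              Ideal.absNorm v.asIdeal ≤ X}, (points {member (lineForms a b) c} v -
                (Ideal.absNorm v.asIdeal : ℝ) ^ 2 - (Ideal.absNorm v.asIdeal : ℝ) - 1 -
                r * (Ideal.absNorm v.asIdeal : ℝ)) *
                Real.log (Ideal.absNorm v.asIdeal)|}.ncard : ℝ) ≤
          L * X₀ ^ (-δ) * ((Box ω B).ncard : ℝ)) := by
  classical
  constructor
  · intro σ _ M D d Z e g A hZ hg he hA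
    have hA0 : 0 ≤ A := by
      obtain ⟨v, -⟩ := Pool.Agent.T6.H9.HY.exists_large (K := K) 0
      have h1 := hA v
      have h2 : (0 : ℝ) < (Ideal.absNorm v.asIdeal : ℝ) ^ d := by
        have := one_le_qvR v
        positivity
      have h3 : 0 ≤ points Z v := by
        rw [points_eq]
        exact div_nonneg (Nat.cast_nonneg _) (q_sub_pos v).le
      by_contra hcon
      push Not at hcon
      nlinarith
    refine main Z g ω hA0 hA he hδ (fun c X => ∑ᶠ v ∈ {v : HeightOneSpectrum (𝓞 K) |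
      Ideal.absNorm v.asIdeal ≤ X}, tate Z g c v * Real.log (Ideal.absNorm v.asIdeal))
      (C' := 0) fun c X hX => ?_
    rw [finsum_le, sub_self, abs_zero, zero_mul]
  · intro r D hD a b hab
    exact lines a b ω hab hD hδ

end Pool.Agent.Results.MP_97f789_ag.TateOnAverage
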