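import Mathlib
import Pool.Agent.TH115.GD.Defs
import Pool.Agent.TH115.ID.Defs
import Pool.Agent.R939.EI.Tw1
import Pool.Agent.T6.H14.EV.Main
import Pool.Agent.T6.H14.TW.Ex

/-!
# The Tate conjecture at 2 in towers of coverings of every degree (iterated base change)

Let `k` be a number field, `K = k(t)`, `F = k'(t)` with `k'` a separable closure of `k`. For polynomials
`a`, `b` over `k` let `E(a, b) : y² = x (x² + a x + b)`. `TateAtTwo` says that all the classes in
`V₂ Sel(E / F)` which are fixed by the Galois group of `k` come from `E(K)`: this is the Tate
conjecture for divisors and the prime 2 on the elliptic surface over the projective line with generic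
fibre `E`.

Let `S` be a set of polynomials over `k` of positive degrees, and suppose that every prime factor `f` of
`b (a² - 4 b)`

* is stable for `S` in the sense of arithmetic dynamics: `f(h)` is irreducible for all the composites `h`
  of elements of `S` (`StableFor`); for example this holds if for some prime ideal `P` the polynomial `f`
  is an Eisenstein polynomial at `P` and the elements of `S` are `≡ c t ^ m` modulo `P` with constant
  term in `P²`;
* for some place of `k` and some set `Z` of residue classes at the place, `f` has an integral root in the
  completion with residue class in `Z`, and modulo the place, for all `g` in `S` and `x` in `Z`, the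
  equation `g(y) = x` has a simple solution `y` in `Z`, and `g - x` has no divisor of degree
  `deg g / 2` (`LocallyUnbalanced`).

Theorem. Then for ALL the composites `h = g₁ ∘ g₂ ∘ ⋯ ∘ gₙ` of elements of `S`, of any length: if
`E(a, b)` satisfies the criterion `Crit` of descent theory (where the Mordell-Weil rank can be positive),
so does `E(a(h), b(h))`, and the Tate conjecture at 2 holds for it; if `E(a, b)` satisfies the criterion
`CritTriv` (only trivial Selmer classes), so does `E(a(h), b(h))`, and the Tate conjecture at 2 holds for
all its twists by `c D`, where `b(h)` and `a(h)² - 4 b(h)` are not squares modulo the primes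
dividing `D`.

There is no condition on the parity of the degrees: the set `S` can contain polynomials of all degrees
except 2, and it is defined by congruences at two places. So one surface gives infinitely many infinite
towers of coverings of the line of EVEN degree, with all the layers. Up to now there were only layers of
odd degree (`CompositeCovers`, `t ^ m + c` with `m` odd), the proof by Springer's theorem; for the
other known theorems on base changes of every degree (100 percent of the `h`) the exceptional
polynomials are not known, and the iterates of one polynomial are a set of density zero.

Example. Over the rational numbers let `E : y² = x (x² + 12 x + t³ + 3 t + 6)`. The second part says that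
for all the composites `h` of the monic integral polynomials in `ExampleSet` (explicit congruences
modulo 18) and all `e ≠ 0` the Tate conjecture at 2 holds for
`y² = x (x² + 12 e x + e² (h³ + 3 h + 6))`. The set contains polynomials of all degrees
except 2, for example `g = t⁴ + 3 t² + 3 t`, so that we can take all the iterates `h` of `g`, of degree
`4 ^ n`.

Proof. Let `β` be a root of `f(h)`, `h` a composite, and `θ` a root of `g - β`, `g` in `S`. By Hensel's
lemma, the fields `k(β)` and `k(θ)` have embeddings in the completion `E` of `k` at the place
for which `β` and `θ` are integral with residue classes in `Z`. If `k(θ)` contained a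
square root of an element of `k(β)` which is not a square there, then `g - β` would be a product
of two polynomials of degree `deg g / 2` over a quadratic extension of `k(β)` which is contained in `k(θ)`
and so in `E`; by the lemma of Gauss this contradicts the condition on the divisors modulo the place. So
there are no new square roots in the residue fields, and by the theorem on conics without residues
(`Pool.Agent.T6.H14.EV.Fad`) all the classes come from the layer below.
-/

set_option autoImplicit false

namespace Pool.Agent.Results.MP_97f789_ag.TowersEveryDegree

open Polynomial Pool.Agent.TH115.GD Pool.Agent.R939.EI Pool.Agent.T6.H14.EV Pool.Agent.T6.H14.TW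

theorem result :
    -- number fields
    (∀ {k k' K F : Type} [Field k] [NumberField k] [Field k'] [Algebra k k'] [Field K]
      [Algebra k[X] K] [Field F] [Algebra k'[X] F] [IsFractionRing k'[X] F] [Algebra K F]
      (_ : IsTower k k' K F) {S : Set k[X]} (_ : ∀ g ∈ S, 0 < g.natDegree) {a b : k[X]}
      (_ : ∀ f : k[X], Irreducible f → f ∣ b * (a ^ 2 - 4 * b) →
        StableFor S f ∧ LocallyUnbalanced S f) {h : k[X]} (_ : IsCompositeOf S h),
      Tame k' K F a b h) ∧
    -- an example over the rational numbers
    (∀ {k' K F : Type} [Field k'] [Algebra ℚ k'] [Field K] [Algebra ℚ[X] K] [Field F]
      [Algebra k'[X] F] [IsFractionRing k'[X] F] [Algebra K F] (_ : IsTower ℚ k' K F)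
      {h : ℚ[X]} (_ : IsCompositeOf ExampleSet h) {e : ℚ} (_ : e ≠ 0),
      TateAtTwo (F := F) k' (crvT (algebraMap ℚ[X] K (C (12 * e)))
        (algebraMap ℚ[X] K (C (e ^ 2) * (h ^ 3 + 3 * h + 6))))) ∧
    (X ^ 4 + 3 * X ^ 2 + 3 * X : ℚ[X]) ∈ ExampleSet :=
  ⟨fun hT _ hS _ _ hf _ hh => tame_composite hT hS hf hh,
    fun hT _ hh _ he => example_tower hT hh he, quartic_mem⟩

end Pool.Agent.Results.MP_97f789_ag.TowersEveryDegree
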